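import Pool.Agent.Results.MP_1cd194_co.PolynomialGap

/-!
# The gap between the two largest distance multiplicities in the plane

There is an absolute constant `c > 0` with `G(n) ≥ n ^ (1 + c)` for all large `n`.

The set of points comes from the library theorem `H118R2.gap_of_towerS` (one distance occurs
`2 n ^ (1 + c)` ordered times more often than all others), which also gives the starting result
`MP_1cd194_co.PolynomialGap`; here it is put in the form of the present problem, in which `G(n)` is a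
maximum over the sets with at least two distinct distances.
-/

set_option autoImplicit false

open Finset

namespace Pool.Agent.Results.MP_439fea_co.PolynomialGap

open Pool.Agent Pool.Agent.Results.MP_1cd194_co.PolynomialGap

/-- `d₁` and `d₂` are the two most frequent distances of `A`: different distances of `A`, `d₁` at
least as frequent as `d₂`, and `d₂` at least as frequent as every distance other than `d₁`. -/
def TopTwo (A : Finset (EuclideanSpace ℝ (Fin 2))) (d₁ d₂ : ℝ) : Prop :=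
  0 < d₁ ∧ 0 < d₂ ∧ d₁ ≠ d₂ ∧ 1 ≤ pairCount A d₂ ∧ pairCount A d₂ ≤ pairCount A d₁ ∧
    ∀ s : ℝ, 0 < s → s ≠ d₁ → pairCount A s ≤ pairCount A d₂

/-- `G n` is the maximum of `f(d₁) - f(d₂)` over all sets of `n` points of the plane with at least
two distinct distances. -/
noncomputable def G (n : ℕ) : ℕ :=
  sSup {g : ℕ | ∃ A : Finset (EuclideanSpace ℝ (Fin 2)), A.card = n ∧
    ∃ d₁ d₂ : ℝ, TopTwo A d₁ d₂ ∧ g = pairCount A d₁ - pairCount A d₂}

lemma mult_card (A : Finset (EuclideanSpace ℝ (Fin 2))) (d : ℝ) (hd : 0 < d) :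
    2 * pairCount A d = ((A ×ˢ A).filter (fun p => dist p.1 p.2 = d)).card := by
  classical
  rw [two_mul_pairCount A d hd]
  unfold H118R2.mult
  congr!

lemma pos_of_pair {A : Finset (EuclideanSpace ℝ (Fin 2))} {x y : EuclideanSpace ℝ (Fin 2)}
    (hx : x ∈ A) (hy : y ∈ A) (hxy : x ≠ y) : 1 ≤ pairCount A (dist x y) := by
  have h1 := mult_card A (dist x y) (dist_pos.2 hxy)
  have h2 : 0 < ((A ×ˢ A).filter (fun p => dist p.1 p.2 = dist x y)).card := by
    rw [card_pos]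
    exact ⟨(x, y), mem_filter.2 ⟨mem_product.2 ⟨hx, hy⟩, rfl⟩⟩
  omega

lemma pair_of_pos {A : Finset (EuclideanSpace ℝ (Fin 2))} {s : ℝ} (hs : 0 < s)
    (h : 1 ≤ pairCount A s) : ∃ x ∈ A, ∃ y ∈ A, x ≠ y ∧ dist x y = s := by
  have h1 := mult_card A s hs
  have h2 : 0 < ((A ×ˢ A).filter (fun p => dist p.1 p.2 = s)).card := by omega
  rw [card_pos] at h2
  obtain ⟨p, hp⟩ := h2
  rw [mem_filter, mem_product] at hp
  refine ⟨p.1, hp.1.1, p.2, hp.1.2, ?_, hp.2⟩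
  intro h3
  rw [h3, dist_self] at hp
  linarith [hp.2]

lemma dist_coord {x y : EuclideanSpace ℝ (Fin 2)} {t : ℝ} (h : dist x y = t) :
    (x 0 - y 0) ^ 2 + (x 1 - y 1) ^ 2 = t ^ 2 := by
  rw [← h, EuclideanSpace.dist_eq, Real.sq_sqrt (Finset.sum_nonneg fun _ _ => by positivity),
    Fin.sum_univ_two, Real.dist_eq, Real.dist_eq, sq_abs, sq_abs]

/-- four points of the plane are not equidistant -/
lemma not_equilateral {A : Finset (EuclideanSpace ℝ (Fin 2))} (hA : 4 ≤ A.card) (t : ℝ) :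
    ∃ x ∈ A, ∃ y ∈ A, x ≠ y ∧ dist x y ≠ t := by
  classical
  by_contra hcon
  push Not at hcon
  obtain ⟨a, ha⟩ : A.Nonempty := card_pos.1 (by omega)
  have h3 : 2 < (A.erase a).card := by rw [card_erase_of_mem ha]; omega
  obtain ⟨b, hb, c, hc, d, hd, hbc, hbd, hcd⟩ := Finset.two_lt_card.1 h3
  rw [mem_erase] at hb hc hd
  have e1 := dist_coord (hcon b hb.2 a ha hb.1)
  have e2 := dist_coord (hcon c hc.2 a ha hc.1)
  have e3 := dist_coord (hcon d hd.2 a ha hd.1)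
  have e4 := dist_coord (hcon b hb.2 c hc.2 hbc)
  have e5 := dist_coord (hcon b hb.2 d hd.2 hbd)
  have e6 := dist_coord (hcon c hc.2 d hd.2 hcd)
  have ht : t ≠ 0 := by
    have h4 := hcon b hb.2 a ha hb.1
    have h5 := dist_pos.2 hb.1
    rw [h4] at h5
    exact h5.ne'
  obtain ⟨T, hT⟩ : ∃ T : ℝ, T = t ^ 2 := ⟨_, rfl⟩
  have hT0 : 0 < T := by rw [hT]; positivity
  rw [← hT] at e1 e2 e3 e4 e5 e6
  obtain ⟨b0, hb0⟩ : ∃ z : ℝ, z = b 0 - a 0 := ⟨_, rfl⟩
  obtain ⟨b1, hb1⟩ : ∃ z : ℝ, z = b 1 - a 1 := ⟨_, rfl⟩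
  obtain ⟨c0, hc0⟩ : ∃ z : ℝ, z = c 0 - a 0 := ⟨_, rfl⟩
  obtain ⟨c1, hc1⟩ : ∃ z : ℝ, z = c 1 - a 1 := ⟨_, rfl⟩
  obtain ⟨d0, hd0⟩ : ∃ z : ℝ, z = d 0 - a 0 := ⟨_, rfl⟩
  obtain ⟨d1, hd1⟩ : ∃ z : ℝ, z = d 1 - a 1 := ⟨_, rfl⟩
  rw [← hb0, ← hb1] at e1
  rw [← hc0, ← hc1] at e2
  rw [← hd0, ← hd1] at e3
  have e4' : (b0 - c0) ^ 2 + (b1 - c1) ^ 2 = T := by rw [← e4, hb0, hb1, hc0, hc1]; ring
  have e5' : (b0 - d0) ^ 2 + (b1 - d1) ^ 2 = T := by rw [← e5, hb0, hb1, hd0, hd1]; ring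
  have e6' : (c0 - d0) ^ 2 + (c1 - d1) ^ 2 = T := by rw [← e6, hc0, hc1, hd0, hd1]; ring
  have p1 : b0 * c0 + b1 * c1 = T / 2 := by linarith
  have p2 : b0 * d0 + b1 * d1 = T / 2 := by linarith
  have p3 : c0 * d0 + c1 * d1 = T / 2 := by linarith
  have gram : (b0 ^ 2 + b1 ^ 2) * (c0 ^ 2 + c1 ^ 2) * (d0 ^ 2 + d1 ^ 2) +
      2 * (b0 * c0 + b1 * c1) * (c0 * d0 + c1 * d1) * (b0 * d0 + b1 * d1) -
      (b0 ^ 2 + b1 ^ 2) * (c0 * d0 + c1 * d1) ^ 2 - (c0 ^ 2 + c1 ^ 2) * (b0 * d0 + b1 * d1) ^ 2 -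
      (d0 ^ 2 + d1 ^ 2) * (b0 * c0 + b1 * c1) ^ 2 = 0 := by ring
  rw [e1, e2, e3, p1, p2, p3] at gram
  have : T ^ 3 = 0 := by linarith
  exact absurd this (by positivity)

/-- There is an absolute constant `c > 0` with `G(n) ≥ n ^ (1 + c)` for all large `n`. -/
theorem result : ∃ c : ℝ, 0 < c ∧ ∃ n₀ : ℕ, ∀ n : ℕ, n₀ ≤ n → (n : ℝ) ^ (1 + c) ≤ G n := by
  classical
  obtain ⟨c, hc, n₀, hn₀, h⟩ := H118R2.gap_of_towerS
    (TeamU.towerS_of TeamU.obstructionBound TeamU.existsL0 TeamU.rankZ1)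
  refine ⟨c, hc, max n₀ 4, fun n hn => ?_⟩
  have hn1 : n₀ * 1 ≤ n := by rw [mul_one]; exact (le_max_left _ _).trans hn
  have hn4 : 4 ≤ n := (le_max_right _ _).trans hn
  obtain ⟨Q, hQ, T, hT, hpos, hgap⟩ := h n 1 le_rfl hn1
  obtain ⟨t, rfl⟩ := Finset.card_eq_one.1 hT
  have ht0 : 0 < t := hpos t (mem_singleton_self t)
  set A : Finset (EuclideanSpace ℝ (Fin 2)) := Q.image TeamU.toPlane with hA
  have hAcard : A.card = n := by
    rw [hA, card_image_of_injective _ TeamU.toPlane.injective, hQ]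
  have hmult : ∀ t : ℝ, H118R2.mult A t = H118R2.mult Q t := by
    intro t
    rw [hA, H118R2.mult_image_isometry (fun x => TeamU.toPlane x) 1 one_ne_zero
      (fun x y => by rw [one_mul]; exact TeamU.toPlane.dist_eq x y) Q t, div_one]
  have hg0 : 0 < (n : ℝ) ^ (1 + c) := by
    have h1 : (0 : ℝ) < n := by exact_mod_cast (show 0 < n by omega)
    positivity
  have key : ∀ s : ℝ, 0 < s → s ≠ t → (pairCount A s : ℝ) + (n : ℝ) ^ (1 + c) ≤ pairCount A t := by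
    intro s hs0 hst
    have h1 := hgap t (mem_singleton_self t) s hs0 (by simpa using hst)
    rw [← hmult, ← hmult, ← two_mul_pairCount A t ht0, ← two_mul_pairCount A s hs0] at h1
    push_cast at h1
    rw [div_one] at h1
    linarith
  -- the second distance
  obtain ⟨D, hD⟩ : ∃ D : Finset ℝ, D = ((A ×ˢ A).image (fun p => dist p.1 p.2)).filter
      (fun s => 0 < s ∧ s ≠ t) := ⟨_, rfl⟩
  have hDne : D.Nonempty := by
    obtain ⟨x, hx, y, hy, hxy, hne⟩ := not_equilateral (by rw [hAcard]; exact hn4) t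
    refine ⟨dist x y, ?_⟩
    rw [hD, mem_filter, mem_image]
    exact ⟨⟨(x, y), mem_product.2 ⟨hx, hy⟩, rfl⟩, dist_pos.2 hxy, hne⟩
  obtain ⟨d₂, hd₂, hmax⟩ := exists_max_image D (fun s => pairCount A s) hDne
  rw [hD, mem_filter, mem_image] at hd₂
  obtain ⟨⟨p, hp, hpd⟩, hd0, hdt⟩ := hd₂
  rw [mem_product] at hp
  have hp12 : p.1 ≠ p.2 := by
    intro h1
    rw [h1, dist_self] at hpd
    linarith
  have hone : 1 ≤ pairCount A d₂ := by
    rw [← hpd]
    exact pos_of_pair hp.1 hp.2 hp12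
  have hk := key d₂ hd0 hdt
  have hle : pairCount A d₂ ≤ pairCount A t := by
    have : (pairCount A d₂ : ℝ) ≤ pairCount A t := by linarith
    exact_mod_cast this
  have htop : TopTwo A t d₂ := by
    refine ⟨ht0, hd0, hdt.symm, hone, hle, ?_⟩
    intro s hs0 hst
    by_cases h1 : 1 ≤ pairCount A s
    · obtain ⟨x, hx, y, hy, hxy, hs⟩ := pair_of_pos hs0 h1
      apply hmax
      rw [hD, mem_filter, mem_image]
      exact ⟨⟨(x, y), mem_product.2 ⟨hx, hy⟩, hs⟩, hs0, hst⟩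
    · omega
  have hG : pairCount A t - pairCount A d₂ ≤ G n := by
    unfold G
    refine le_csSup ⟨n * n, ?_⟩ ⟨A, hAcard, t, d₂, htop, rfl⟩
    rintro g ⟨B, hB, e₁, e₂, htt, rfl⟩
    have := pairCount_le B e₁ htt.1
    rw [hB] at this
    omega
  have h2 : ((pairCount A t - pairCount A d₂ : ℕ) : ℝ) = (pairCount A t : ℝ) - pairCount A d₂ := by
    push_cast [hle]; ring
  have h3 : ((pairCount A t - pairCount A d₂ : ℕ) : ℝ) ≤ G n := by exact_mod_cast hG
  rw [h2] at h3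
  linarith

end Pool.Agent.Results.MP_439fea_co.PolynomialGap
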